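import Pool.Agent.T6.H3.HW.Half
import Pool.Agent.T6.H3.FR.Conv

/-!
# Goldbach partitions with a prime in every window of `(√(2 n), n)` in ALL residue classes, in particular for the
multiples, of the moduli up to `x ^ (4 / 5 - ρ)` which are not divisible by one of few large integers

There is a set `D` of at most `(log x) ^ c` integers, all of them larger than any given power of `log x`, such that
for every modulus `q ≤ x ^ (4 / 5 - ρ)` which is not divisible by a member of `D`, and EVERY residue class `a`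
modulo `q` (for instance `a = 0`: the multiples of `q`), all but at most `x / (q (log x)^A)` of the integers
`n ≤ x`, `n ≡ a (mod q)`, satisfy the assertion of the problem in a localised form: every interval of length at least
`n / (log n)^W` in `[0, n]` contains a prime `p` as required, and the number of these primes is at least `1 / 9` of
the expected number.

Definition used (in `Pool.Agent.H560R3.GB`): `sing m = 2 C₂ ∏_{p ∣ m, p > 2} (p - 1) / (p - 2)`, the singular series,
where `C₂ = ∏_{p > 2} (1 - 1 / (p - 1) ^ 2)` is the twin prime constant.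

Proof (`T6/H3/FR`, `T6/H3/FF`). Let `G(n) = log N (1 - ω(n))`, where `ω(n)` is the number of the prime factors of
`n` up to `√N`, if `n ≤ N` has no prime factors up to `N ^ (1 / 5)`, and `G(n) = 0` otherwise. Then `Λ(n) ≥ G(n)` up
to a factor near `1`, and so `Λ * Λ ≥ Λ * G` in every window, and the mean value of `G` is larger than `1 / 8`. A
primitive character is bad if its sum with the weights `G` is large; then its sum over one of the short classes of a
variable between `N ^ (1 / 10)` and `N ^ (1 / 5)` is large too, and so, by the large sieve for the sixteenth powers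
of the short sums, there are at most `(log N) ^ c` bad characters of conductors up to `N ^ (4 / 5)`. The members of
`D` are the bad conductors larger than a high power of `log N`, divided by small factors.
-/

set_option autoImplicit false

namespace Pool.Agent.Results.MP_33f996_nt.AllClassesWindows

open Finset
open Pool.Agent.H560R3.GB (sing)
open Pool.Agent.W93.PG (cnt)

/-- The number of the primes `p` with `y < p ≤ z` and `√(2 n) < p < n` for which `2 n - p` is also a prime. -/
noncomputable def reps (n y z : ℕ) : ℕ :=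
  ((Ioc y z).filter (fun p : ℕ => p.Prime ∧ √(2 * (n : ℝ)) < p ∧ p < n ∧ (2 * n - p).Prime)).card

/-- The expected number of these primes, `sing (2 n) (z - y) / (log (2 n))²`. -/
noncomputable def expected (n y z : ℕ) : ℝ := sing (2 * n) * (((z : ℝ) - y) / Real.log (2 * n) ^ 2)

/-- Every interval `(y, z]` in `[0, n]` of length at least `n / (log n) ^ W` contains a prime `p` with
`√(2 n) < p < n` for which `2 n - p` is also a prime (the assertion of the problem for `n`), and the number of these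
primes is at least `1 / 9` of the expected number. -/
def Holds (W n : ℕ) : Prop :=
  ∀ y z : ℕ, y < z → z ≤ n → (n : ℝ) / Real.log n ^ W ≤ (z : ℝ) - y →
    (∃ p : ℕ, y < p ∧ p ≤ z ∧ p.Prime ∧ (2 * n - p).Prime ∧ √(2 * (n : ℝ)) < p ∧ p < n) ∧
      expected n y z / 9 ≤ reps n y z

/-- The integers `0 < n ≤ x` with `n ≡ a (mod q)` for which `Holds W n` is false. -/
def exceptional (W : ℕ) (x : ℝ) (q : ℕ) (a : ℤ) : Set ℕ :=
  {n : ℕ | 0 < n ∧ (n : ℝ) ≤ x ∧ (n : ℤ) ≡ a [ZMOD q] ∧ ¬ Holds W n}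

theorem holds_of (W : ℕ) : ∃ m₀ : ℕ, ∀ m : ℕ, m₀ ≤ m → 2 ∣ m → Pool.Agent.T6.H3.FF.WinM (W + 1) m →
    Holds W (m / 2) := by
  obtain ⟨m₀, h0⟩ := Pool.Agent.T6.H3.HW.half_windows W
  refine ⟨m₀ + 4, fun m hm h2 hw => ?_⟩
  intro y z hyz hz hlen
  obtain ⟨h3, hzy⟩ := h0 m (by omega) hw y z hyz hz hlen
  obtain ⟨n, rfl⟩ := h2
  have hn2 : 2 * n / 2 = n := by omega
  rw [hn2] at h3 hz hlen ⊢
  have hnr : (2 : ℝ) ≤ n := by exact_mod_cast (by omega : 2 ≤ n)
  have hcast : ((2 * n : ℕ) : ℝ) = 2 * (n : ℝ) := by push_cast; ring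
  have hlog : 0 < Real.log (2 * (n : ℝ)) := Real.log_pos (by linarith)
  have hs := Pool.Agent.R460.GS.one_le_sing (2 * n)
  rw [hcast] at h3
  have hle : cnt (2 * n) (max y (Nat.sqrt (2 * n))) (min z (n - 1)) ≤ reps n y z := by
    unfold cnt reps
    apply card_le_card
    intro p hp
    rw [mem_filter, mem_Ioc] at hp
    rw [mem_filter, mem_Ioc]
    have h4 : Nat.sqrt (2 * n) < p := lt_of_le_of_lt (le_max_right _ _) hp.1.1
    have h5 : 2 * n < p * p := Nat.sqrt_lt.1 h4
    have h6 : 2 * (n : ℝ) < (p : ℝ) * p := by exact_mod_cast h5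
    have h7 : p ≤ n - 1 := hp.1.2.trans (min_le_right _ _)
    refine ⟨⟨lt_of_le_of_lt (le_max_left _ _) hp.1.1, hp.1.2.trans (min_le_left _ _)⟩, hp.2.1, ?_, by omega, hp.2.2⟩
    rw [Real.sqrt_lt' (by exact_mod_cast hp.2.1.pos), sq]
    exact h6
  have h4 : expected n y z / 9 ≤ reps n y z := by
    have h5 : (cnt (2 * n) (max y (Nat.sqrt (2 * n))) (min z (n - 1)) : ℝ) ≤ reps n y z := by exact_mod_cast hle
    refine le_trans (le_trans (le_of_eq ?_) h3) h5
    unfold expected
    ring
  refine ⟨?_, h4⟩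
  have h5 : 0 < expected n y z / 9 := by
    unfold expected
    positivity
  have h6 : (0 : ℝ) < reps n y z := lt_of_lt_of_le h5 h4
  have h7 : 0 < reps n y z := by exact_mod_cast h6
  unfold reps at h7
  rw [card_pos] at h7
  obtain ⟨p, hp⟩ := h7
  rw [mem_filter, mem_Ioc] at hp
  exact ⟨p, hp.1.1, hp.1.2, hp.2.1, hp.2.2.2.2, hp.2.2.1, hp.2.2.2.1⟩

/-- For all `ρ > 0`, `A` and `W` there is `c` such that for all `B` and all sufficiently large real `x` there is a finite
set `D` of at most `(log x) ^ c` integers, all of them larger than `(log x) ^ B`, such that for every integer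
`1 ≤ q ≤ x ^ (4 / 5 - ρ)` which is not divisible by a member of `D` and for EVERY integer `a`, all but at most
`x / (q (log x)^A)` of the integers `0 < n ≤ x`, `n ≡ a (mod q)`, satisfy the assertion of the problem in
every window: every interval `(y, z]` in `[0, n]` with `z - y ≥ n / (log n)^W` contains a prime `p` with
`√(2 n) < p < n` such that `2 n - p` is prime, and the number of these primes is at least `1 / 9` of the expected
number `sing (2 n) (z - y) / (log (2 n))²`. -/
theorem result (ρ : ℝ) (hρ : 0 < ρ) (A W : ℕ) :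
    ∃ c : ℕ, ∀ B : ℕ, ∃ x₀ : ℝ, ∀ x : ℝ, x₀ ≤ x → ∃ D : Finset ℕ, (D.card : ℝ) ≤ Real.log x ^ c ∧
      (∀ d ∈ D, Real.log x ^ B < (d : ℝ)) ∧
      ∀ q : ℕ, 1 ≤ q → (q : ℝ) ≤ x ^ (4 / 5 - ρ) → (∀ d ∈ D, ¬ d ∣ q) → ∀ a : ℤ,
        (exceptional W x q a).Finite ∧ ((exceptional W x q a).ncard : ℝ) ≤ x / (q * Real.log x ^ A) := by
  classical
  obtain ⟨c, h⟩ := Pool.Agent.T6.H3.FR.class_few_reg4 (fun m => Holds W (m / 2)) (W + 1) (holds_of W)
    (ρ / 2) (by linarith) A
  refine ⟨2 * c + 1, fun B => ?_⟩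
  obtain ⟨x₀, h⟩ := h (B + 1)
  obtain ⟨x₁, hx₁⟩ : ∃ x₁ : ℝ, ∀ x : ℝ, x₁ ≤ x → 4 ≤ x ^ (ρ / 2) := by
    have h := (tendsto_rpow_atTop (show (0 : ℝ) < ρ / 2 by linarith)).eventually_ge_atTop (4 : ℝ)
    exact Filter.eventually_atTop.1 h
  refine ⟨max (max x₀ x₁) (Real.exp 8), fun x hx => ?_⟩
  have hxa : x₀ ≤ x := (le_max_left _ _).trans ((le_max_left _ _).trans hx)
  have hxb := hx₁ x ((le_max_right _ _).trans ((le_max_left _ _).trans hx))
  have hx8 : Real.exp 8 ≤ x := (le_max_right _ _).trans hx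
  have hx0 : 0 < x := lt_of_lt_of_le (Real.exp_pos _) hx8
  have hl8 : 8 ≤ Real.log x := by rw [Real.le_log_iff_exp_le hx0]; exact hx8
  have hl2 : Real.log x ≤ Real.log (2 * x) := Real.log_le_log hx0 (by linarith)
  have hl2' : Real.log (2 * x) ≤ Real.log x ^ 2 := by
    rw [Real.log_mul (by norm_num) hx0.ne']
    have := Real.log_two_lt_d9
    nlinarith
  obtain ⟨D, hD1, hD2, h⟩ := h (2 * x) (by linarith)
  refine ⟨D ∪ D.image (fun d => d / 2), ?_, ?_, ?_⟩
  · have e1 : (D ∪ D.image (fun d => d / 2)).card ≤ D.card + D.card :=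
      (card_union_le _ _).trans (Nat.add_le_add_left card_image_le _)
    have e2 : ((D ∪ D.image (fun d => d / 2)).card : ℝ) ≤ 2 * D.card := by
      have : ((D ∪ D.image (fun d => d / 2)).card : ℝ) ≤ (D.card : ℝ) + D.card := by exact_mod_cast e1
      linarith
    have e3 : Real.log (2 * x) ^ c ≤ Real.log x ^ (2 * c) := by
      rw [pow_mul]
      exact pow_le_pow_left₀ (by linarith) hl2' c
    have e4 : 0 ≤ Real.log x ^ (2 * c) := by positivity
    rw [pow_succ]
    nlinarith
  · intro d hd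
    have e0 : Real.log x ^ B ≤ Real.log (2 * x) ^ B := pow_le_pow_left₀ (by linarith) hl2 B
    have e1 : 1 ≤ Real.log (2 * x) ^ B := one_le_pow₀ (by linarith)
    rw [mem_union, mem_image] at hd
    rcases hd with hd | ⟨e, he, rfl⟩
    · have e2 := hD2 d hd
      rw [pow_succ] at e2
      nlinarith
    · have e2 := hD2 e he
      rw [pow_succ] at e2
      have e3 : (e : ℝ) ≤ 2 * ((e / 2 : ℕ) : ℝ) + 1 := by
        have : e ≤ 2 * (e / 2) + 1 := by omega
        exact_mod_cast this
      nlinarith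
  intro q hq hqx hqD a
  have hqD' : ∀ d ∈ D, ¬ d ∣ 2 * q := by
    intro d hd hdvd
    rcases Nat.even_or_odd d with he | ho
    · obtain ⟨e, he⟩ := he
      have he2 : d = 2 * e := by omega
      apply hqD (d / 2) (mem_union_right _ (mem_image_of_mem _ hd))
      rw [he2] at hdvd ⊢
      rw [Nat.mul_div_cancel_left e (by norm_num)]
      exact Nat.dvd_of_mul_dvd_mul_left (by norm_num) hdvd
    · apply hqD d (mem_union_left _ hd)
      exact (Nat.Coprime.dvd_mul_left (Nat.coprime_two_right.2 ho)).1 hdvd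
  have hq0 : (0 : ℝ) < q := by exact_mod_cast hq
  have hq2 : ((2 * q : ℕ) : ℝ) ≤ (2 * x) ^ (4 / 5 - ρ / 2) := by
    push_cast
    have e1 : x ^ (4 / 5 - ρ / 2) = x ^ (4 / 5 - ρ) * x ^ (ρ / 2) := by
      rw [← Real.rpow_add hx0]; congr 1; ring
    have e0 : 0 ≤ x ^ (4 / 5 - ρ) := by positivity
    rcases le_or_gt 0 (4 / 5 - ρ / 2) with hc | hc
    · have e2 : x ^ (4 / 5 - ρ / 2) ≤ (2 * x) ^ (4 / 5 - ρ / 2) :=
        Real.rpow_le_rpow hx0.le (by linarith) hc
      nlinarith
    · exfalso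
      have e3 : x ^ (4 / 5 - ρ) ≤ x ^ (0 : ℝ) :=
        Real.rpow_le_rpow_of_exponent_le (by linarith [Real.add_one_le_exp (8 : ℝ)]) (by linarith)
      have e4 : x ^ (4 / 5 - ρ / 2) ≤ x ^ (0 : ℝ) :=
        Real.rpow_le_rpow_of_exponent_le (by linarith [Real.add_one_le_exp (8 : ℝ)]) hc.le
      rw [Real.rpow_zero] at e3 e4
      have e5 : (1 : ℝ) ≤ q := by exact_mod_cast hq
      nlinarith
  obtain ⟨f1, f2⟩ := h (2 * q) (by omega) hq2 hqD' (2 * a)
  obtain ⟨S, hS⟩ : ∃ S : Set ℕ, S = {n : ℕ | 0 < n ∧ (n : ℝ) ≤ 2 * x ∧ 2 ∣ n ∧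
      (n : ℤ) ≡ 2 * a [ZMOD ((2 * q : ℕ) : ℤ)] ∧ ¬ (fun m => Holds W (m / 2)) n} := ⟨_, rfl⟩
  rw [← hS] at f1 f2
  have hmaps : ∀ n ∈ exceptional W x q a, 2 * n ∈ S := by
    rintro n ⟨e1, e2, e3, e4⟩
    rw [hS]
    refine ⟨by omega, ?_, ⟨n, rfl⟩, ?_, ?_⟩
    · push_cast
      linarith
    · push_cast
      exact Int.ModEq.mul_left' e3
    · have e5 : 2 * n / 2 = n := by omega
      simp only [e5]
      exact e4
  have hinj : Set.InjOn (fun n : ℕ => 2 * n) (exceptional W x q a) := by
    intro n _ n' _ h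
    have : 2 * n = 2 * n' := h
    omega
  have hfin : (exceptional W x q a).Finite := Set.Finite.of_injOn (fun n hn => hmaps n hn) hinj f1
  refine ⟨hfin, ?_⟩
  have h1 : (exceptional W x q a).ncard ≤ S.ncard :=
    Set.ncard_le_ncard_of_injOn (fun n : ℕ => 2 * n) hmaps hinj f1
  have h2 : ((exceptional W x q a).ncard : ℝ) ≤ (S.ncard : ℝ) := by exact_mod_cast h1
  refine h2.trans (f2.trans ?_)
  push_cast
  rw [mul_assoc 2 (q : ℝ), mul_div_mul_left _ _ (two_ne_zero)]
  apply div_le_div_of_nonneg_left hx0.le (by positivity)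
  exact mul_le_mul_of_nonneg_left (pow_le_pow_left₀ (by linarith) hl2 A) hq0.le

end Pool.Agent.Results.MP_33f996_nt.AllClassesWindows
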