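import Pool.Agent.T6.H3.HW.Half

/-!
# Goldbach partitions with a prime in every window of `(√(2 n), n)`, in the residue classes of EVERY modulus
`q ≤ x ^ (4 / 5 - ρ)`

For every modulus `q ≤ x ^ (4 / 5 - ρ)`, without any exceptional moduli, and every residue class `a` modulo `q`
with `gcd(a, q) ≤ (log x)^T`, all but at most `x / (q (log x)^A)` of the integers `n ≤ x`, `n ≡ a (mod q)`, satisfy
the assertion of the problem in a localised form: every interval of length at least `n / (log n)^W` in `[0, n]`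
contains a prime `p` as required, and the number of these primes is at least `1 / 9` of the expected number.

Definition used (in `Pool.Agent.H560R3.GB`): `sing m = 2 C₂ ∏_{p ∣ m, p > 2} (p - 1) / (p - 2)`, the singular series,
where `C₂ = ∏_{p > 2} (1 - 1 / (p - 1) ^ 2)` is the twin prime constant.

Proof (`T6/H3/FF`). Let `G(n) = log N (1 - ω(n))`, where `ω(n)` is the number of the prime factors of `n` up to
`√N`, if `n ≤ N` has no prime factors up to `N ^ (1 / 5)`, and `G(n) = 0` otherwise. Then `Λ(n) ≥ G(n)` up to a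
factor near `1`, since `G(n) ≤ 0` if `n` is not a prime, and so `Λ * Λ ≥ Λ * G` in every window: only one factor is
replaced. The mean value of `G` is larger than `1 / 8`. By two applications of Buchstab's identity the difference of
`G` and a sieve model is a combination of smooth sums up to `N ^ (1 / 5)` and of bilinear sums with a variable
between `N ^ (1 / 10)` and `N ^ (1 / 5)`, so its sum over all but few characters modulo `q` is small in mean square
near the fractions with small denominators, and over all characters elsewhere, if `q ≤ N ^ (4 / 5 - ρ)`. The bad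
characters of a large conductor contribute sums over shifted classes, which are small if `gcd(a, q)` is small: no
zero-free region for the characters modulo `q` is needed, and there are no exceptional moduli.
-/

set_option autoImplicit false

namespace Pool.Agent.Results.MP_33f996_nt.EveryModulusWindows

open Finset
open Pool.Agent.H560R3.GB (sing)
open Pool.Agent.W93.PG (cnt)

/-- The number of the primes `p` with `y < p ≤ z` and `√(2 n) < p < n` for which `2 n - p` is also a prime. -/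
noncomputable def reps (n y z : ℕ) : ℕ :=
  ((Ioc y z).filter (fun p : ℕ => p.Prime ∧ √(2 * (n : ℝ)) < p ∧ p < n ∧ (2 * n - p).Prime)).card

/-- The expected number of these primes, `sing (2 n) (z - y) / (log (2 n))²`. -/
noncomputable def expected (n y z : ℕ) : ℝ := sing (2 * n) * (((z : ℝ) - y) / Real.log (2 * n) ^ 2)

/-- Every interval `(y, z]` in `[0, n]` of length at least `n / (log n) ^ W` contains a prime `p` with
`√(2 n) < p < n` for which `2 n - p` is also a prime (the assertion of the problem for `n`), and the number of these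
primes is at least `1 / 9` of the expected number. -/
def Holds (W n : ℕ) : Prop :=
  ∀ y z : ℕ, y < z → z ≤ n → (n : ℝ) / Real.log n ^ W ≤ (z : ℝ) - y →
    (∃ p : ℕ, y < p ∧ p ≤ z ∧ p.Prime ∧ (2 * n - p).Prime ∧ √(2 * (n : ℝ)) < p ∧ p < n) ∧
      expected n y z / 9 ≤ reps n y z

/-- The integers `0 < n ≤ x` with `n ≡ a (mod q)` for which `Holds W n` is false. -/
def exceptional (W : ℕ) (x : ℝ) (q : ℕ) (a : ℤ) : Set ℕ :=
  {n : ℕ | 0 < n ∧ (n : ℝ) ≤ x ∧ (n : ℤ) ≡ a [ZMOD q] ∧ ¬ Holds W n}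

theorem holds_of (W : ℕ) : ∃ m₀ : ℕ, ∀ m : ℕ, m₀ ≤ m → 2 ∣ m → Pool.Agent.T6.H3.FF.WinM (W + 1) m →
    Holds W (m / 2) := by
  obtain ⟨m₀, h0⟩ := Pool.Agent.T6.H3.HW.half_windows W
  refine ⟨m₀ + 4, fun m hm h2 hw => ?_⟩
  intro y z hyz hz hlen
  obtain ⟨h3, hzy⟩ := h0 m (by omega) hw y z hyz hz hlen
  obtain ⟨n, rfl⟩ := h2
  have hn2 : 2 * n / 2 = n := by omega
  rw [hn2] at h3 hz hlen ⊢
  have hnr : (2 : ℝ) ≤ n := by exact_mod_cast (by omega : 2 ≤ n)
  have hcast : ((2 * n : ℕ) : ℝ) = 2 * (n : ℝ) := by push_cast; ring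
  have hlog : 0 < Real.log (2 * (n : ℝ)) := Real.log_pos (by linarith)
  have hs := Pool.Agent.R460.GS.one_le_sing (2 * n)
  rw [hcast] at h3
  have hle : cnt (2 * n) (max y (Nat.sqrt (2 * n))) (min z (n - 1)) ≤ reps n y z := by
    unfold cnt reps
    apply card_le_card
    intro p hp
    rw [mem_filter, mem_Ioc] at hp
    rw [mem_filter, mem_Ioc]
    have h4 : Nat.sqrt (2 * n) < p := lt_of_le_of_lt (le_max_right _ _) hp.1.1
    have h5 : 2 * n < p * p := Nat.sqrt_lt.1 h4
    have h6 : 2 * (n : ℝ) < (p : ℝ) * p := by exact_mod_cast h5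
    have h7 : p ≤ n - 1 := hp.1.2.trans (min_le_right _ _)
    refine ⟨⟨lt_of_le_of_lt (le_max_left _ _) hp.1.1, hp.1.2.trans (min_le_left _ _)⟩, hp.2.1, ?_, by omega, hp.2.2⟩
    rw [Real.sqrt_lt' (by exact_mod_cast hp.2.1.pos), sq]
    exact h6
  have h4 : expected n y z / 9 ≤ reps n y z := by
    have h5 : (cnt (2 * n) (max y (Nat.sqrt (2 * n))) (min z (n - 1)) : ℝ) ≤ reps n y z := by exact_mod_cast hle
    refine le_trans (le_trans (le_of_eq ?_) h3) h5
    unfold expected
    ring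
  refine ⟨?_, h4⟩
  have h5 : 0 < expected n y z / 9 := by
    unfold expected
    positivity
  have h6 : (0 : ℝ) < reps n y z := lt_of_lt_of_le h5 h4
  have h7 : 0 < reps n y z := by exact_mod_cast h6
  unfold reps at h7
  rw [card_pos] at h7
  obtain ⟨p, hp⟩ := h7
  rw [mem_filter, mem_Ioc] at hp
  exact ⟨p, hp.1.1, hp.1.2, hp.2.1, hp.2.2.2.2, hp.2.2.1, hp.2.2.2.1⟩

/-- For all `ρ > 0`, `A`, `T` and `W` and all sufficiently large real `x`: for EVERY integer
`1 ≤ q ≤ x ^ (4 / 5 - ρ)` and every integer `a` with `gcd(a, q) ≤ (log x)^T`, all but at most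
`x / (q (log x)^A)` of the integers `0 < n ≤ x`, `n ≡ a (mod q)`, satisfy the assertion of the problem in every window:
every interval `(y, z]` in `[0, n]` with `z - y ≥ n / (log n)^W` contains a prime `p` with `√(2 n) < p < n` such that
`2 n - p` is prime, and the number of these primes is at least `1 / 9` of the expected number
`sing (2 n) (z - y) / (log (2 n))²`. -/
theorem result (ρ : ℝ) (hρ : 0 < ρ) (A T W : ℕ) :
    ∃ x₀ : ℝ, ∀ x : ℝ, x₀ ≤ x → ∀ q : ℕ, 1 ≤ q → (q : ℝ) ≤ x ^ (4 / 5 - ρ) →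
      ∀ a : ℤ, (Int.gcd a q : ℝ) ≤ Real.log x ^ T →
        (exceptional W x q a).Finite ∧ ((exceptional W x q a).ncard : ℝ) ≤ x / (q * Real.log x ^ A) := by
  obtain ⟨x₀, h⟩ := Pool.Agent.T6.H3.FF.class_few4 (fun m => Holds W (m / 2)) (W + 1) (holds_of W)
    (ρ / 2) (by linarith) A (T + 1)
  obtain ⟨x₁, hx₁⟩ : ∃ x₁ : ℝ, ∀ x : ℝ, x₁ ≤ x → 4 ≤ x ^ (ρ / 2) := by
    have h := (tendsto_rpow_atTop (show (0 : ℝ) < ρ / 2 by linarith)).eventually_ge_atTop (4 : ℝ)
    exact Filter.eventually_atTop.1 h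
  refine ⟨max (max x₀ x₁) (Real.exp 8), fun x hx q hq hqx a ha => ?_⟩
  have hxa : x₀ ≤ x := (le_max_left _ _).trans ((le_max_left _ _).trans hx)
  have hxb := hx₁ x ((le_max_right _ _).trans ((le_max_left _ _).trans hx))
  have hx8 : Real.exp 8 ≤ x := (le_max_right _ _).trans hx
  have hx0 : 0 < x := lt_of_lt_of_le (Real.exp_pos _) hx8
  have hl8 : 8 ≤ Real.log x := by rw [Real.le_log_iff_exp_le hx0]; exact hx8
  have hq0 : (0 : ℝ) < q := by exact_mod_cast hq
  have hl2 : Real.log x ≤ Real.log (2 * x) := Real.log_le_log hx0 (by linarith)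
  have hq2 : ((2 * q : ℕ) : ℝ) ≤ (2 * x) ^ (4 / 5 - ρ / 2) := by
    push_cast
    have e1 : x ^ (4 / 5 - ρ / 2) = x ^ (4 / 5 - ρ) * x ^ (ρ / 2) := by
      rw [← Real.rpow_add hx0]; congr 1; ring
    have e0 : 0 ≤ x ^ (4 / 5 - ρ) := by positivity
    rcases le_or_gt 0 (4 / 5 - ρ / 2) with hc | hc
    · have e2 : x ^ (4 / 5 - ρ / 2) ≤ (2 * x) ^ (4 / 5 - ρ / 2) :=
        Real.rpow_le_rpow hx0.le (by linarith) hc
      nlinarith
    · exfalso
      have e3 : x ^ (4 / 5 - ρ) ≤ x ^ (0 : ℝ) :=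
        Real.rpow_le_rpow_of_exponent_le (by linarith [Real.add_one_le_exp (8 : ℝ)]) (by linarith)
      have e4 : x ^ (4 / 5 - ρ / 2) ≤ x ^ (0 : ℝ) :=
        Real.rpow_le_rpow_of_exponent_le (by linarith [Real.add_one_le_exp (8 : ℝ)]) hc.le
      rw [Real.rpow_zero] at e3 e4
      have e5 : (1 : ℝ) ≤ q := by exact_mod_cast hq
      nlinarith
  have hgcd : (Int.gcd (2 * a) ((2 * q : ℕ) : ℤ) : ℝ) ≤ Real.log (2 * x) ^ (T + 1) := by
    have e1 : Int.gcd (2 * a) ((2 * q : ℕ) : ℤ) = 2 * Int.gcd a q := by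
      push_cast
      rw [Int.gcd_mul_left]
      rfl
    rw [e1]
    push_cast
    have e2 : Real.log x ^ T ≤ Real.log (2 * x) ^ T := pow_le_pow_left₀ (by linarith) hl2 T
    have e3 : 0 ≤ Real.log (2 * x) ^ T := pow_nonneg (by linarith) T
    rw [pow_succ]
    nlinarith
  obtain ⟨f1, f2⟩ := h (2 * x) (by linarith) (2 * q) (by omega) hq2 (2 * a) hgcd
  obtain ⟨S, hS⟩ : ∃ S : Set ℕ, S = {n : ℕ | 0 < n ∧ (n : ℝ) ≤ 2 * x ∧ 2 ∣ n ∧
      (n : ℤ) ≡ 2 * a [ZMOD ((2 * q : ℕ) : ℤ)] ∧ ¬ (fun m => Holds W (m / 2)) n} := ⟨_, rfl⟩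
  rw [← hS] at f1 f2
  have hmaps : ∀ n ∈ exceptional W x q a, 2 * n ∈ S := by
    rintro n ⟨e1, e2, e3, e4⟩
    rw [hS]
    refine ⟨by omega, ?_, ⟨n, rfl⟩, ?_, ?_⟩
    · push_cast
      linarith
    · push_cast
      exact Int.ModEq.mul_left' e3
    · have e5 : 2 * n / 2 = n := by omega
      simp only [e5]
      exact e4
  have hinj : Set.InjOn (fun n : ℕ => 2 * n) (exceptional W x q a) := by
    intro n _ n' _ h
    have : 2 * n = 2 * n' := h
    omega
  have hfin : (exceptional W x q a).Finite := Set.Finite.of_injOn (fun n hn => hmaps n hn) hinj f1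
  refine ⟨hfin, ?_⟩
  have h1 : (exceptional W x q a).ncard ≤ S.ncard :=
    Set.ncard_le_ncard_of_injOn (fun n : ℕ => 2 * n) hmaps hinj f1
  have h2 : ((exceptional W x q a).ncard : ℝ) ≤ (S.ncard : ℝ) := by exact_mod_cast h1
  refine h2.trans (f2.trans ?_)
  push_cast
  rw [mul_assoc 2 (q : ℝ), mul_div_mul_left _ _ (two_ne_zero)]
  apply div_le_div_of_nonneg_left hx0.le (by positivity)
  exact mul_le_mul_of_nonneg_left (pow_le_pow_left₀ (by linarith) hl2 A) hq0.le

end Pool.Agent.Results.MP_33f996_nt.EveryModulusWindows
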