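import Pool.Agent.T6.H2.PT.IsoG
import Pool.Agent.T6.H2.PT.Gold2
import Pool.Agent.T6.H3.FF.Conv

set_option autoImplicit false

/-!
# Goldbach partitions into two isolated primes, for almost all even numbers and in every window

For every `β > 0` and `c < 1 / 8` there is `ε > 0` such that for all but at most `x / (log x) ^ A` of the integers
`n ≤ x` every interval `(y, z]` in `[0, n]` of length at least `n / (log n) ^ W` contains at least `c` times the
expected number of primes `p` with `√(2 n) < p < n` such that `2 n - p` is also a prime and such that both primes are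
isolated: all other integers at distance at most `ε log n` of `p` or of `2 n - p` have a prime factor `≤ n ^ β`. In
particular (`β < 1`) the distance of `p` and of `2 n - p` to the neighbouring primes is larger than `ε log n`, on
both sides.

The lower bound for the number of all Goldbach partitions in windows, for almost all `n`, is from `Pool.Agent.T6.H3.FF`.
The partitions that are not isolated are counted by an upper bound sieve for the three forms `p`, `2 n - p` and
`p + c` or `2 n - p + c`, `|c| ≤ ε log n`; the mean value of the singular series over `c` is bounded uniformly in `n`.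
-/

namespace Pool.Agent.Results.MP_33f996_nt.IsolatedGoldbach

open Finset Filter
open Pool.Agent.H560R3.GB (sing)
open Pool.Agent.W93.PG (cnt)
open Pool.Agent.X32.Uni Pool.Agent.T6.H2.PT

/-- every integer `m` different from `p` and `q` at distance at most `w` of `p` or `q` has a prime factor `≤ v` -/
def Isolated (p q : ℕ) (w v : ℝ) : Prop :=
  ∀ m : ℤ, (|(m : ℝ) - p| ≤ w ∨ |(m : ℝ) - q| ≤ w) → m ≠ p → m ≠ q → ∃ r : ℕ, r.Prime ∧ (r : ℝ) ≤ v ∧ (r : ℤ) ∣ m

open Classical in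
/-- The number of the primes `p` with `y < p ≤ z` and `√(2 n) < p < n` for which `2 n - p` is also a prime and `p` and
`2 n - p` are isolated. -/
noncomputable def reps (ε β : ℝ) (n y z : ℕ) : ℕ :=
  ((Ioc y z).filter (fun p : ℕ => p.Prime ∧ √(2 * (n : ℝ)) < p ∧ p < n ∧ (2 * n - p).Prime ∧
    Isolated p (2 * n - p) (ε * Real.log n) ((n : ℝ) ^ β))).card

/-- The expected number of all the Goldbach partitions, `sing (2 n) (z - y) / (log (2 n))²`. -/
noncomputable def expected (n y z : ℕ) : ℝ := sing (2 * n) * (((z : ℝ) - y) / Real.log (2 * n) ^ 2)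

/-- Every interval `(y, z]` in `[0, n]` of length at least `n / (log n) ^ W` contains at least `c` times the expected
number of primes `p` with `√(2 n) < p < n` for which `2 n - p` is also a prime and both primes are isolated. -/
def Holds (ε β c : ℝ) (W n : ℕ) : Prop :=
  ∀ y z : ℕ, y < z → z ≤ n → (n : ℝ) / Real.log n ^ W ≤ (z : ℝ) - y → c * expected n y z ≤ reps ε β n y z

theorem holds_of (β c : ℝ) (hβ : 0 < β) (hc : c < 1 / 8) : ∃ ε : ℝ, 0 < ε ∧ ∀ W : ℕ, ∃ m₀ : ℕ, ∀ m : ℕ, m₀ ≤ m →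
    2 ∣ m → Pool.Agent.T6.H3.FF.WinM (W + 1) m → Holds ε β c W (m / 2) := by
  classical
  obtain ⟨β', hβ'⟩ : ∃ β' : ℝ, β' = min (β / 2) (1 / 2) := ⟨_, rfl⟩
  have hβ'0 : 0 < β' := by
    rw [hβ']
    exact lt_min (by positivity) (by norm_num)
  have hβ'1 : 2 * β' ≤ β := by
    have := min_le_left (β / 2) (1 / 2)
    rw [← hβ'] at this
    linarith
  have hβ'2 : β' ≤ 1 / 2 := by
    rw [hβ']
    exact min_le_right _ _
  obtain ⟨K₁, hK₁, HI⟩ := isoG 2 1 (by omega) β' hβ'0
  obtain ⟨η, hη⟩ : ∃ η : ℝ, η = (1 / 8 - c) / 2 := ⟨_, rfl⟩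
  have hη0 : 0 < η := by
    rw [hη]
    linarith
  obtain ⟨ε, hε⟩ : ∃ ε : ℝ, ε = η / (4 * K₁) := ⟨_, rfl⟩
  have hε0 : 0 < ε := by rw [hε]; positivity
  refine ⟨ε, hε0, fun W => ?_⟩
  obtain ⟨X₁, HI⟩ := HI ε hε0 1
  have hlog4 : ∀ᶠ m : ℕ in atTop, (4 : ℝ) ≤ Real.log m :=
    (Real.tendsto_log_atTop.comp tendsto_natCast_atTop_atTop).eventually_ge_atTop _
  have hs1 : ∀ᶠ m : ℕ in atTop, (4 * (2 / η + 2)) * Real.log m ^ (W + 3) ≤ (m : ℝ) ^ (1 / 2 : ℝ) :=
    Pool.Agent.X32.Fam.log_small' (W + 3) (4 * (2 / η + 2)) (1 / 2) (by norm_num)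
  have hs2 : ∀ᶠ m : ℕ in atTop, (2 * ε) * Real.log m ^ 1 ≤ (m : ℝ) ^ (1 / 2 : ℝ) :=
    Pool.Agent.X32.Fam.log_small' 1 (2 * ε) (1 / 2) (by norm_num)
  obtain ⟨X₂, H2⟩ := eventually_atTop.1 (((hlog4.and hs1).and hs2).and VL_gold)
  refine ⟨X₁ + X₂ + 16, fun m hm h2 hw => ?_⟩
  obtain ⟨⟨⟨hl4, hs1⟩, hs2⟩, hVL⟩ := H2 m (by omega)
  have hVL := hVL h2
  obtain ⟨n, rfl⟩ := h2
  have hn2 : 2 * n / 2 = n := by omega
  rw [hn2]
  have hcast : ((2 * n : ℕ) : ℝ) = 2 * (n : ℝ) := by push_cast; ring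
  have hn8 : (8 : ℝ) ≤ n := by exact_mod_cast (by omega : 8 ≤ n)
  have hn0 : (0 : ℝ) < n := by linarith
  obtain ⟨M, hM⟩ : ∃ M : ℝ, M = ((2 * n : ℕ) : ℝ) := ⟨_, rfl⟩
  have hM0 : 0 < M := by rw [hM, hcast]; positivity
  have hM1 : 1 ≤ M := by rw [hM, hcast]; linarith
  obtain ⟨L, hL⟩ : ∃ L : ℝ, L = Real.log M := ⟨_, rfl⟩
  rw [← hM] at hl4 hs1 hs2 hVL
  rw [← hL] at hl4 hs1 hs2 hVL
  have hL0 : 0 < L := by linarith
  have hln : Real.log n ≤ L := by
    rw [hL]
    exact Real.log_le_log hn0 (by rw [hM, hcast]; linarith)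
  have hln1 : 1 ≤ Real.log n := by
    have h1 : L = Real.log 2 + Real.log n := by
      rw [hL, hM, hcast, Real.log_mul (by norm_num) hn0.ne']
    have h3 : Real.log 2 ≤ 1 := by
      have := Real.log_two_lt_d9
      linarith
    linarith
  have hln0 : 0 < Real.log n := by linarith
  obtain ⟨sM, hsM⟩ : ∃ sM : ℝ, sM = M ^ (1 / 2 : ℝ) := ⟨_, rfl⟩
  rw [← hsM] at hs1 hs2
  have hsM0 : 0 < sM := by rw [hsM]; positivity
  have hsM2 : sM * sM = M := by
    rw [hsM, ← Real.rpow_add hM0]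
    norm_num
  have hsM1 : 2 ≤ sM := by
    by_contra hcon
    push Not at hcon
    have h6 : M = 2 * n := by rw [hM, hcast]
    nlinarith
  have hsq : √(2 * (n : ℝ)) = sM := by
    rw [hsM, ← Real.sqrt_eq_rpow, hM, hcast]
  intro y z hyz hz hlen
  have hzy0 : 0 < (z : ℝ) - y := by
    have : (y : ℝ) < z := by exact_mod_cast hyz
    linarith
  -- the length of the window
  have hlen1 : M / L ^ (W + 1) ≤ (z : ℝ) - y := by
    refine le_trans ?_ hlen
    rw [div_le_div_iff₀ (by positivity) (by positivity)]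
    have h3 : Real.log n ^ W ≤ L ^ W := pow_le_pow_left₀ hln0.le hln W
    have h4 : M = 2 * n := by rw [hM, hcast]
    rw [h4, pow_succ]
    have h5 : 0 ≤ L ^ W := by positivity
    nlinarith [mul_nonneg hn0.le h5]
  have hlen2 : (2 / η + 2) * (sM * L ^ 2) ≤ (z : ℝ) - y := by
    refine le_trans ?_ hlen1
    rw [le_div_iff₀ (by positivity)]
    have h3 : 0 < 2 / η + 2 := by positivity
    calc (2 / η + 2) * (sM * L ^ 2) * L ^ (W + 1) = sM * ((2 / η + 2) * L ^ (W + 3)) := by ring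
      _ ≤ sM * sM := by
          apply mul_le_mul_of_nonneg_left _ hsM0.le
          refine le_trans ?_ hs1
          have : 0 ≤ (2 / η + 2) * L ^ (W + 3) := by positivity
          linarith
      _ = M := hsM2
  have hL2 : 1 ≤ L ^ 2 := by nlinarith
  have hhalf : M ^ (1 / 2 : ℝ) ≤ (z : ℝ) - y := by
    rw [← hsM]
    refine le_trans ?_ hlen2
    have h3 : 1 ≤ 2 / η + 2 := by
      have : 0 < 2 / η := by positivity
      linarith
    have h4 : sM ≤ sM * L ^ 2 := by nlinarith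
    nlinarith
  -- the singular series
  obtain ⟨D, hD⟩ : ∃ D : ℝ, D = ∏ p ∈ (2 * n).primeFactors.filter (fun p => 2 < p), ((p : ℝ) - 1) / ((p : ℝ) - 2) :=
    ⟨_, rfl⟩
  have hD1 : 1 ≤ D := by
    rw [hD]
    calc (1 : ℝ) = ∏ _p ∈ (2 * n).primeFactors.filter (fun p => 2 < p), (1 : ℝ) := by simp
      _ ≤ _ := by
        apply prod_le_prod (fun _ _ => zero_le_one)
        intro p hp
        have h3 : (3 : ℝ) ≤ p := by exact_mod_cast (mem_filter.1 hp).2
        rw [le_div_iff₀ (by linarith)]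
        linarith
  have hsing : D ≤ sing (2 * n) := by
    have h3 := Pool.Agent.W93.GB.C2_half
    have h4 : sing (2 * n) = 2 * Pool.Agent.H560R3.GB.C₂ * D := by
      rw [hD]
      rfl
    rw [h4]
    nlinarith
  have hsing1 : 1 ≤ sing (2 * n) := hD1.trans hsing
  rw [← hD] at hVL
  obtain ⟨E, hE⟩ : ∃ E : ℝ, E = sing (2 * n) * (((z : ℝ) - y) / L ^ 2) := ⟨_, rfl⟩
  have hEx : expected n y z = E := by
    unfold expected
    rw [hE, hL, hM, hcast]
  have hE0 : 0 < E := by rw [hE]; positivity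
  have hEbig : sM + 2 ≤ η * E := by
    have h3 : (2 / η + 2) * sM ≤ E := by
      rw [hE]
      calc (2 / η + 2) * sM = ((2 / η + 2) * (sM * L ^ 2)) / L ^ 2 := by field_simp
        _ ≤ ((z : ℝ) - y) / L ^ 2 := by gcongr
        _ = 1 * (((z : ℝ) - y) / L ^ 2) := (one_mul _).symm
        _ ≤ sing (2 * n) * (((z : ℝ) - y) / L ^ 2) := by gcongr
    have h4 : η * ((2 / η + 2) * sM) ≤ η * E := mul_le_mul_of_nonneg_left h3 hη0.le
    have h5 : η * ((2 / η + 2) * sM) = 2 * sM + 2 * η * sM := by field_simp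
    have h6 : 0 ≤ 2 * η * sM := by positivity
    linarith
  -- all partitions in the window
  have hcnt : 1 / 8 * E ≤ (cnt (2 * n) y z : ℝ) := by
    have h3 := hw y z hyz (by omega) (by rw [← hM, ← hL]; exact hlen1)
    rw [← hM, ← hL] at h3
    rw [hE]
    refine le_trans (le_of_eq ?_) h3
    ring
  -- the set of the isolated partitions, and the bad sets
  obtain ⟨G, hG⟩ : ∃ G : Finset ℕ, G = (Ioc y z).filter (fun p : ℕ => p.Prime ∧ √(2 * (n : ℝ)) < p ∧ p < n ∧
    (2 * n - p).Prime ∧ Isolated p (2 * n - p) (ε * Real.log n) ((n : ℝ) ^ β)) := ⟨_, rfl⟩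
  have hreps : reps ε β n y z = G.card := by
    unfold reps
    rw [hG]
  obtain ⟨F, hF⟩ : ∃ F : Finset (ℤ × ℤ), F = {(1, 0), (-1, ((2 * n : ℕ) : ℤ))} := ⟨_, rfl⟩
  have hv0 : ∀ p : ℕ, uG 1 0 * (p : ℤ) + vG ![2 * n] 0 = (p : ℤ) := by
    intro p
    rw [uG0, vG0]
    ring
  have hvs : ∀ (l : Fin 1) (p : ℕ), p ≤ 2 * n → uG 1 l.succ * (p : ℤ) + vG ![2 * n] l.succ = ((2 * n - p : ℕ) : ℤ) := by
    intro l p hp
    rw [uGs, vGs, Nat.cast_sub hp]
    fin_cases l
    simp
    ring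
  have hsub : (Ioc y z).filter (fun p => p.Prime ∧ (2 * n - p).Prime) ⊆
      G ∪ (range (⌊sM⌋₊ + 1) ∪ ({n} ∪ BadF (uG 1) (vG ![2 * n]) F (ε * L) (M ^ β') y z)) := by
    intro p hp
    rw [mem_filter, mem_Ioc] at hp
    obtain ⟨⟨hp1, hp2⟩, hp3, hp4⟩ := hp
    rw [mem_union, mem_union, mem_union]
    by_cases h3 : (p : ℝ) ≤ sM
    · right; left
      rw [mem_range]
      have := Nat.le_floor h3
      omega
    push Not at h3
    by_cases h4 : p = n
    · right; right; left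
      exact mem_singleton.2 h4
    have hpn : p < n := by omega
    by_cases h5 : Isolated p (2 * n - p) (ε * Real.log n) ((n : ℝ) ^ β)
    · left
      rw [hG, mem_filter, mem_Ioc]
      exact ⟨⟨hp1, hp2⟩, hp3, by rw [hsq]; exact h3, hpn, hp4, h5⟩
    right; right; right
    unfold Isolated at h5
    push Not at h5
    obtain ⟨t, t1, t2, t3, t4⟩ := h5
    have hpM : M ^ β' ≤ sM := by
      rw [hsM]
      exact Real.rpow_le_rpow_of_exponent_le hM1 hβ'2
    have hpow : M ^ β' ≤ (n : ℝ) ^ β := by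
      calc M ^ β' ≤ ((n : ℝ) ^ (2 : ℝ)) ^ β' := by
            apply Real.rpow_le_rpow hM0.le _ hβ'0.le
            rw [show (2 : ℝ) = ((2 : ℕ) : ℝ) by norm_num, Real.rpow_natCast, hM, hcast]
            nlinarith
        _ = (n : ℝ) ^ (2 * β') := by rw [← Real.rpow_mul hn0.le]
        _ ≤ (n : ℝ) ^ β := Real.rpow_le_rpow_of_exponent_le (by linarith) hβ'1
    have hq0 : (n : ℝ) < ((2 * n - p : ℕ) : ℝ) := by exact_mod_cast (by omega : n < 2 * n - p)
    have hsMn : sM ≤ n := by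
      by_contra hcon
      push Not at hcon
      have h6 : M = 2 * n := by rw [hM, hcast]
      nlinarith
    have hwl : ε * Real.log n < sM := by
      rw [pow_one] at hs2
      have h6 : ε * Real.log n ≤ ε * L := mul_le_mul_of_nonneg_left hln hε0.le
      have h7 : 0 < ε * L := by positivity
      linarith
    have ht0 : 0 < t := by
      have : (0 : ℝ) < t := by
        rcases t1 with t1 | t1
        · have := (abs_le.1 t1).1
          linarith
        · have := (abs_le.1 t1).1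
          linarith
      exact_mod_cast this
    have hw' : ε * Real.log n ≤ ε * L := mul_le_mul_of_nonneg_left hln hε0.le
    unfold BadF
    rw [mem_filter]
    have hRL : p ∈ RL (uG 1) (vG ![2 * n]) (M ^ β') y z := by
      unfold RL
      rw [mem_filter, mem_Ioc]
      refine ⟨⟨hp1, hp2⟩, fun l => ?_⟩
      refine Fin.cases ?_ (fun l => ?_) l
      · intro q hq hqy hd
        rw [hv0] at hd
        have h6 := (Nat.prime_dvd_prime_iff_eq hq hp3).1 (Int.natCast_dvd_natCast.1 hd)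
        rw [h6] at hqy
        linarith
      · intro q hq hqy hd
        rw [hvs l p (by omega)] at hd
        have h6 := (Nat.prime_dvd_prime_iff_eq hq hp4).1 (Int.natCast_dvd_natCast.1 hd)
        rw [h6] at hqy
        linarith
    have hne : ∀ l, t ≠ uG 1 l * (p : ℤ) + vG ![2 * n] l ∧ t ≠ -(uG 1 l * (p : ℤ) + vG ![2 * n] l) := by
      intro l
      refine Fin.cases ?_ (fun l => ?_) l
      · rw [hv0]
        refine ⟨t2, ?_⟩
        have : (0 : ℤ) ≤ p := Int.natCast_nonneg p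
        omega
      · rw [hvs l p (by omega)]
        refine ⟨t3, ?_⟩
        have : (0 : ℤ) ≤ ((2 * n - p : ℕ) : ℤ) := Int.natCast_nonneg _
        omega
    have hdv : ∀ q : ℕ, q.Prime → (q : ℝ) ≤ M ^ β' → ¬ (q : ℤ) ∣ t := fun q hq hqy => t4 q hq (hqy.trans hpow)
    rcases t1 with t1 | t1
    · refine ⟨hRL, (1, 0), by rw [hF]; simp, t, ?_, hne, hdv⟩
      push_cast
      rw [one_mul, add_zero]
      exact t1.trans hw'
    · refine ⟨hRL, (-1, ((2 * n : ℕ) : ℤ)), by rw [hF]; simp, t, ?_, hne, hdv⟩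
      have h6 : (((-1 : ℤ) * (p : ℤ) + ((2 * n : ℕ) : ℤ) : ℤ) : ℝ) = ((2 * n - p : ℕ) : ℝ) := by
        rw [Nat.cast_sub (by omega : p ≤ 2 * n)]
        push_cast
        ring
      rw [h6]
      exact t1.trans hw'
  have hbad : ((BadF (uG 1) (vG ![2 * n]) F (ε * L) (M ^ β') y z).card : ℝ) ≤ η * E := by
    have h3 := HI (2 * n) (by omega) (uG 1) (vG ![2 * n]) (fun l => by
      refine Fin.cases ?_ (fun l => ?_) l
      · rw [uG0]; exact one_ne_zero
      · rw [uGs]; norm_num) (fun l => by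
      refine Fin.cases ?_ (fun l => ?_) l
      · rw [uG0]; simp
      · rw [uGs]; simp) (fun l => by
      refine Fin.cases ?_ (fun l => ?_) l
      · rw [vG0]
        simp
      · rw [vGs]
        fin_cases l
        simp [abs_of_nonneg]) F (fun f hf => by
      rw [hF] at hf
      simp only [mem_insert, mem_singleton] at hf
      rcases hf with rfl | rfl
      · refine ⟨by norm_num, by norm_num, by simp⟩
      · refine ⟨by norm_num, by norm_num, ?_⟩
        simp only
        rw [abs_of_nonneg (Int.natCast_nonneg _)]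
        push_cast
        linarith) y z (by omega) (by rw [← hM]; exact hhalf)
    rw [← hM, ← hL] at h3
    have hFc : (F.card : ℝ) ≤ 2 := by
      have : F.card ≤ 2 := by
        rw [hF]
        exact card_le_two
      exact_mod_cast this
    have hV0 := VL_nonneg (uG 1) (vG ![2 * n]) (2 * n)
    refine h3.trans ?_
    calc (F.card : ℝ) * (K₁ * ε * ((z : ℝ) - y) * VL (uG 1) (vG ![2 * n]) (2 * n))
        ≤ 2 * (K₁ * ε * ((z : ℝ) - y) * (2 * D / L ^ 2)) := by gcongr
      _ ≤ 2 * (K₁ * ε * ((z : ℝ) - y) * (2 * sing (2 * n) / L ^ 2)) := by gcongr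
      _ = η * E := by
          rw [hE, hε]
          field_simp
          ring
  have hfin : (cnt (2 * n) y z : ℝ) ≤ G.card + (sM + 2) + η * E := by
    have h3 : cnt (2 * n) y z ≤ G.card + ((⌊sM⌋₊ + 1) + (1 + (BadF (uG 1) (vG ![2 * n]) F (ε * L) (M ^ β') y z).card)) := by
      unfold cnt
      refine (card_le_card hsub).trans ?_
      refine (card_union_le _ _).trans ?_
      gcongr
      refine (card_union_le _ _).trans ?_
      rw [card_range]
      gcongr
      refine (card_union_le _ _).trans ?_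
      rw [card_singleton]
    have h4 : (cnt (2 * n) y z : ℝ) ≤ G.card + ((⌊sM⌋₊ + 1) + (1 +
        (BadF (uG 1) (vG ![2 * n]) F (ε * L) (M ^ β') y z).card)) := by exact_mod_cast h3
    have h5 := Nat.floor_le hsM0.le
    linarith
  rw [hEx, hreps]
  have hc' : c * E = 1 / 8 * E - 2 * (η * E) := by
    rw [hη]
    ring
  rw [hc']
  linarith

/-- **Main theorem.** -/
theorem result (β c : ℝ) (hβ : 0 < β) (hc : c < 1 / 8) : ∃ ε : ℝ, 0 < ε ∧ ∀ A W : ℕ, ∃ x₀ : ℝ, ∀ x : ℝ, x₀ ≤ x →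
    {n : ℕ | 0 < n ∧ (n : ℝ) ≤ x ∧ ¬ Holds ε β c W n}.Finite ∧
      ({n : ℕ | 0 < n ∧ (n : ℝ) ≤ x ∧ ¬ Holds ε β c W n}.ncard : ℝ) ≤ x / Real.log x ^ A := by
  obtain ⟨ε, hε, H⟩ := holds_of β c hβ hc
  refine ⟨ε, hε, fun A W => ?_⟩
  obtain ⟨x₀, h⟩ := Pool.Agent.T6.H3.FF.class_few4 (fun m => Holds ε β c W (m / 2)) (W + 1) (H W) (1 / 5)
    (by norm_num) (A + 1) 1
  refine ⟨max x₀ (Real.exp 4), fun x hx => ?_⟩
  have hx0 : x₀ ≤ x := (le_max_left _ _).trans hx
  have hx4 : Real.exp 4 ≤ x := (le_max_right _ _).trans hx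
  have hxp : 0 < x := lt_of_lt_of_le (Real.exp_pos _) hx4
  have hx1 : 1 ≤ x := by linarith [Real.add_one_le_exp (4 : ℝ)]
  have hl4 : 4 ≤ Real.log x := by rwa [Real.le_log_iff_exp_le hxp]
  have hl : Real.log x ≤ Real.log (2 * x) := Real.log_le_log hxp (by linarith)
  obtain ⟨h1, h2⟩ := h (2 * x) (by linarith) 1 le_rfl (by
    rw [Nat.cast_one]
    exact Real.one_le_rpow (by linarith) (by norm_num)) 1 (by
    simp only [Nat.cast_one, Int.gcd_one_left, pow_one]
    push_cast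
    linarith)
  have hinj : Function.Injective (fun n : ℕ => 2 * n) := fun a b hab => by
    simp only at hab
    omega
  have hsub : (fun n : ℕ => 2 * n) '' {n : ℕ | 0 < n ∧ (n : ℝ) ≤ x ∧ ¬ Holds ε β c W n} ⊆
      {n : ℕ | 0 < n ∧ (n : ℝ) ≤ 2 * x ∧ 2 ∣ n ∧ (n : ℤ) ≡ 1 [ZMOD ((1 : ℕ) : ℤ)] ∧ ¬ Holds ε β c W (n / 2)} := by
    rintro m ⟨n, ⟨g1, g2, g3⟩, rfl⟩
    refine ⟨by simp only; omega, ?_, ⟨n, rfl⟩, ?_, ?_⟩
    · push_cast
      linarith
    · rw [Nat.cast_one]
      exact Int.modEq_one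
    · have : 2 * n / 2 = n := by omega
      simp only [this]
      exact g3
  have hfin := h1.subset hsub
  refine ⟨hfin.of_finite_image hinj.injOn, ?_⟩
  have h3 : {n : ℕ | 0 < n ∧ (n : ℝ) ≤ x ∧ ¬ Holds ε β c W n}.ncard ≤
      {n : ℕ | 0 < n ∧ (n : ℝ) ≤ 2 * x ∧ 2 ∣ n ∧ (n : ℤ) ≡ 1 [ZMOD ((1 : ℕ) : ℤ)] ∧ ¬ Holds ε β c W (n / 2)}.ncard := by
    rw [← Set.ncard_image_of_injective _ hinj]
    exact Set.ncard_le_ncard hsub h1
  have h4 : ({n : ℕ | 0 < n ∧ (n : ℝ) ≤ x ∧ ¬ Holds ε β c W n}.ncard : ℝ) ≤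
      2 * x / (((1 : ℕ) : ℝ) * Real.log (2 * x) ^ (A + 1)) := le_trans (by exact_mod_cast h3) h2
  refine h4.trans ?_
  rw [Nat.cast_one, one_mul]
  have hlp : 0 < Real.log x := by linarith
  have h5 : Real.log x ^ A * 2 ≤ Real.log (2 * x) ^ (A + 1) := by
    rw [pow_succ]
    have h6 : Real.log x ^ A ≤ Real.log (2 * x) ^ A := pow_le_pow_left₀ hlp.le hl A
    have h7 : 0 < Real.log (2 * x) ^ A := pow_pos (by linarith) A
    calc Real.log x ^ A * 2 ≤ Real.log (2 * x) ^ A * 2 := by gcongr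
      _ ≤ Real.log (2 * x) ^ A * Real.log (2 * x) := by
        apply mul_le_mul_of_nonneg_left _ h7.le
        linarith
  rw [div_le_div_iff₀ (pow_pos (by linarith) _) (pow_pos hlp _)]
  calc 2 * x * Real.log x ^ A = x * (Real.log x ^ A * 2) := by ring
    _ ≤ x * Real.log (2 * x) ^ (A + 1) := by gcongr

end Pool.Agent.Results.MP_33f996_nt.IsolatedGoldbach
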