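import Pool.Agent.T6.H2.PT.IsoP
import Pool.Agent.X32.Uni.Gold

set_option autoImplicit false

/-!
# Chen's theorem in every window, with isolated summands, for every large even number and for several at once

For every large even `N = 2 n` and every window `(A, B]` in `(√(2 n), n)` of length at least `θ n` there are
primes `p` in `(A, B]` such that `N - p` is a product of at most two primes `> X ^ (1/9)`, and both `p` and `N - p`
are isolated: all other integers at distance at most `ε log X` of `p` or of `N - p` have a prime factor `≤ X ^ β`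
(here `β > 0` is arbitrary and `ε = ε(β) > 0`). The number of these `p` has the expected order of magnitude, they form
a positive proportion of all the `p` in `(A, B]` for which `p` and `N - p` have no prime factors `≤ X ^ β`, and for
every colouring almost all of them are covered by disjoint monochromatic arithmetic progressions of length `s` with
differences at most a power of `log X`. The same is true for `K` even numbers `m_1, ..., m_K` at once, if
there is no local obstruction: `m_j - p` is a product of at most two primes for a chosen `j`, all the `m_l - p` are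
almost primes, and `p` and all the `m_l - p` are isolated.
-/

namespace Pool.Agent.Results.MP_33f996_nt.IsolatedPartitions

open Finset Filter
open Pool.Agent.X32.Uni Pool.Agent.T6.H2.PT

variable {K : ℕ}

/-- the number of the residue classes of `0, m_1, ..., m_K` modulo `q` -/
def nu (m : Fin K → ℕ) (q : ℕ) : ℕ := ((insert 0 (univ.image m)).image (fun a => a % q)).card

/-- the product of `1 - ν(q) / q` over the primes `q ≤ X` -/
noncomputable def V (m : Fin K → ℕ) (X : ℕ) : ℝ := ∏ q ∈ (Icc 1 X).filter Nat.Prime, (1 - (nu m q : ℝ) / q)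

/-- no local obstruction: for every prime `q` there is a class `n` prime to `q` such that all `m_l - n` are prime
to `q` -/
def Admissible (m : Fin K → ℕ) : Prop := ∀ q : ℕ, q.Prime → ∃ n : ℕ, ¬ q ∣ n ∧ ∀ l, ¬ n ≡ m l [MOD q]

/-- `v` is a product of at most `r` primes, all of them larger than `y` -/
def AlmostPrime (r : ℕ) (y : ℝ) (v : ℕ) : Prop :=
  1 < v ∧ v.primeFactorsList.length ≤ r ∧ ∀ q : ℕ, q.Prime → q ∣ v → y < q

open Classical in
/-- the primes `p > X ^ (1/t)` in `(A, B]` such that `m_j - p` is a product of at most two primes `> X ^ (1/9)`, all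
the `m_l - p` are products of at most `t` primes `> X ^ (1/t)`, and every integer `z`, different from `p` and from
all the `m_l - p`, at distance at most `w` of `p` or of one of the `m_l - p` has a prime factor `≤ y` -/
noncomputable def Good (m : Fin K → ℕ) (j : Fin K) (t X : ℕ) (w y : ℝ) (A B : ℕ) : Finset ℕ :=
  (Ioc A B).filter (fun p : ℕ => p.Prime ∧ (X : ℝ) ^ (1 / (t : ℝ)) < p ∧
    AlmostPrime 2 ((X : ℝ) ^ (1 / 9 : ℝ)) (m j - p) ∧
    (∀ l, AlmostPrime t ((X : ℝ) ^ (1 / (t : ℝ))) (m l - p)) ∧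
    ∀ z : ℤ, (|(z : ℝ) - p| ≤ w ∨ ∃ l, |(z : ℝ) - (m l - p : ℕ)| ≤ w) → z ≠ p → (∀ l, z ≠ (m l - p : ℕ)) →
      ∃ q : ℕ, q.Prime ∧ (q : ℝ) ≤ y ∧ (q : ℤ) ∣ z)

open Classical in
/-- the `p` in `(A, B]` such that neither `p` nor one of the `m_l - p` has a prime factor `≤ y` -/
noncomputable def Rough (m : Fin K → ℕ) (y : ℝ) (A B : ℕ) : Finset ℕ :=
  (Ioc A B).filter (fun p : ℕ => ∀ q : ℕ, q.Prime → (q : ℝ) ≤ y → ¬ q ∣ p ∧ ∀ l, ¬ q ∣ m l - p)

/-- the terms `a, a + b, ..., a + (s - 1) b` of the progression `z = (a, b)` -/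
def terms (s : ℕ) (z : ℕ × ℕ) : Finset ℕ := (range s).image (fun i => z.1 + i * z.2)

/-- every even number is admissible -/
theorem even_adm (N : ℕ) (hN : Even N) : Admissible ![N] := by
  intro q hq
  rcases Nat.lt_or_ge q 3 with h | h
  · have hq2 : q = 2 := by
      have := hq.two_le
      omega
    subst hq2
    refine ⟨1, by norm_num, fun l => ?_⟩
    fin_cases l
    intro h1
    have h2 : 1 % 2 = N % 2 := h1
    obtain ⟨r, hr⟩ := hN
    omega
  · -- the classes 1 and 2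
    by_cases h1 : (1 : ℕ) ≡ N [MOD q]
    · refine ⟨2, fun hd => ?_, fun l => ?_⟩
      · have := Nat.le_of_dvd (by norm_num) hd
        omega
      · fin_cases l
        intro h2
        have h3 : (2 : ℕ) ≡ N [MOD q] := h2
        have h4 : (2 : ℕ) ≡ 1 [MOD q] := h3.trans h1.symm
        have h5 := Nat.ModEq.eq_of_lt_of_lt h4 (by omega) (by omega)
        omega
    · refine ⟨1, fun hd => ?_, fun l => ?_⟩
      · have := Nat.le_of_dvd (by norm_num) hd
        omega
      · fin_cases l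
        exact h1

/-- the definition in terms of linear forms -/
theorem Good_eq (m : Fin K → ℕ) (j : Fin K) (t X : ℕ) (w y : ℝ) (A B : ℕ) (ht : 1 ≤ t) (hm : ∀ l, B ≤ m l)
    (hw : w < (X : ℝ) ^ (1 / (t : ℝ))) :
    GoodI (uG K) (vG m) 0 j.succ t X w y A B = Good m j t X w y A B := by
  classical
  unfold GoodI
  rw [GG_eq m j t X A B ht hm]
  ext p
  unfold GG Good
  simp only [mem_filter]
  constructor
  · rintro ⟨⟨hp, h1, h2, h3, h4⟩, hiso⟩
    rw [mem_Ioc] at hp
    have hv0 : uG K 0 * (p : ℤ) + vG m 0 = (p : ℤ) := by rw [uG0, vG0]; ring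
    have hvs : ∀ l : Fin K, uG K l.succ * (p : ℤ) + vG m l.succ = ((m l - p : ℕ) : ℤ) := by
      intro l
      rw [uGs, vGs, Nat.cast_sub (hp.2.trans (hm l))]
      ring
    refine ⟨mem_Ioc.2 hp, h1, h2, h3, h4, fun z hz hz1 hz2 => ?_⟩
    have hpos : ∀ l : Fin K, (X : ℝ) ^ (1 / (t : ℝ)) < ((m l - p : ℕ) : ℝ) := by
      intro l
      obtain ⟨g1, g2, g3⟩ := h4 l
      obtain ⟨q, hq, hqd⟩ := Nat.exists_prime_and_dvd (Nat.ne_of_gt g1)
      have g4 := g3 q hq hqd
      have g5 : q ≤ m l - p := Nat.le_of_dvd (by omega) hqd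
      have g6 : (q : ℝ) ≤ ((m l - p : ℕ) : ℝ) := by exact_mod_cast g5
      linarith
    have hz0 : 0 < z := by
      have : (0 : ℝ) < z := by
        rcases hz with hz | ⟨l, hz⟩
        · have := (abs_le.1 hz).1
          linarith
        · have := (abs_le.1 hz).1
          have := hpos l
          linarith
      exact_mod_cast this
    have hu : ∀ u, z ≠ uG K u * (p : ℤ) + vG m u ∧ z ≠ -(uG K u * (p : ℤ) + vG m u) := by
      intro u
      refine Fin.cases ?_ (fun l => ?_) u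
      · rw [hv0]
        refine ⟨hz1, ?_⟩
        have : (0 : ℤ) ≤ p := Int.natCast_nonneg p
        omega
      · rw [hvs]
        refine ⟨hz2 l, ?_⟩
        have : (0 : ℤ) ≤ ((m l - p : ℕ) : ℤ) := Int.natCast_nonneg _
        omega
    rcases hz with hz | ⟨l, hz⟩
    · refine hiso 0 z ?_ hu
      rw [hv0]
      exact_mod_cast hz
    · refine hiso l.succ z ?_ hu
      rw [hvs]
      exact_mod_cast hz
  · rintro ⟨hp, h1, h2, h3, h4, h5⟩
    refine ⟨⟨hp, h1, h2, h3, h4⟩, ?_⟩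
    rw [mem_Ioc] at hp
    have hv0 : uG K 0 * (p : ℤ) + vG m 0 = (p : ℤ) := by rw [uG0, vG0]; ring
    have hvs : ∀ l : Fin K, uG K l.succ * (p : ℤ) + vG m l.succ = ((m l - p : ℕ) : ℤ) := by
      intro l
      rw [uGs, vGs, Nat.cast_sub (hp.2.trans (hm l))]
      ring
    intro l z hz hu
    have e1 : z ≠ p := by
      have := (hu 0).1
      rwa [hv0] at this
    have e2 : ∀ l : Fin K, z ≠ (m l - p : ℕ) := by
      intro l
      have := (hu l.succ).1
      rwa [hvs] at this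
    refine h5 z ?_ e1 e2
    revert hz
    refine Fin.cases ?_ (fun l => ?_) l
    · intro hz
      left
      rw [hv0] at hz
      exact_mod_cast hz
    · intro hz
      right
      refine ⟨l, ?_⟩
      rw [hvs] at hz
      exact_mod_cast hz

/-- the definition in terms of linear forms -/
theorem Rough_eq (m : Fin K → ℕ) (y : ℝ) (A B : ℕ) (hm : ∀ l, B ≤ m l) :
    RL (uG K) (vG m) y A B = Rough m y A B := by
  classical
  unfold RL Rough
  apply filter_congr
  intro p hp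
  rw [mem_Ioc] at hp
  have hv0 : uG K 0 * (p : ℤ) + vG m 0 = (p : ℤ) := by rw [uG0, vG0]; ring
  have hvs : ∀ l : Fin K, uG K l.succ * (p : ℤ) + vG m l.succ = ((m l - p : ℕ) : ℤ) := by
    intro l
    rw [uGs, vGs, Nat.cast_sub (hp.2.trans (hm l))]
    ring
  constructor
  · intro h q hq hqy
    refine ⟨fun hd => h 0 q hq hqy ?_, fun l hd => h l.succ q hq hqy ?_⟩
    · rw [hv0]
      exact Int.natCast_dvd_natCast.2 hd
    · rw [hvs]
      exact Int.natCast_dvd_natCast.2 hd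
  · intro h l
    refine Fin.cases ?_ (fun l => ?_) l
    · intro q hq hqy hd
      rw [hv0] at hd
      exact (h q hq hqy).1 (Int.natCast_dvd_natCast.1 hd)
    · intro q hq hqy hd
      rw [hvs] at hd
      exact (h q hq hqy).2 l (Int.natCast_dvd_natCast.1 hd)

theorem main (K : ℕ) : ∃ t : ℕ, 1 ≤ t ∧ ∃ κ : ℝ, 0 < κ ∧ ∀ (β : ℝ) (D : ℕ), 0 < β → ∃ ε K₂ : ℝ, 0 < ε ∧ 0 < K₂ ∧
    ∀ (s r : ℕ) (θ δ : ℝ), 1 ≤ s → 0 < θ → 0 < δ →
    ∃ c X₀ : ℕ, ∀ X : ℕ, X₀ ≤ X → ∀ m : Fin K → ℕ, (∀ l, m l ≤ D * X) → Admissible m → ∀ j : Fin K,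
      ∀ A B : ℕ, B ≤ X → θ * X ≤ (B : ℝ) - A → (∀ l, B ≤ m l) →
        κ / Real.log X ^ (K + 1) ≤ V m X ∧
        κ * ((B : ℝ) - A) * V m X ≤
          ((Good m j t X (ε * Real.log X) ((X : ℝ) ^ β) A B).card : ℝ) ∧
        ((Rough m ((X : ℝ) ^ β) A B).card : ℝ) ≤ K₂ * ((B : ℝ) - A) * V m X ∧
        ∀ χ : ℕ → Fin r, ∃ P : Finset (ℕ × ℕ),
          (∀ z ∈ P, 1 ≤ z.2 ∧ (z.2 : ℝ) ≤ Real.log X ^ c ∧
            ∀ i < s, z.1 + i * z.2 ∈ Good m j t X (ε * Real.log X) ((X : ℝ) ^ β) A B ∧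
              χ (z.1 + i * z.2) = χ z.1) ∧
          (P : Set (ℕ × ℕ)).PairwiseDisjoint (terms s) ∧
          (((Good m j t X (ε * Real.log X) ((X : ℝ) ^ β) A B \ P.biUnion (terms s)).card : ℕ) : ℝ) ≤
            δ * ((B : ℝ) - A) * V m X := by
  classical
  obtain ⟨t, ht, κ, hκ, HM⟩ := isoP (K + 1) 1 (by omega)
  refine ⟨t, ht, κ, hκ, fun β D hβ => ?_⟩
  obtain ⟨ε, hε, HM⟩ := HM β (D + 1) hβ
  obtain ⟨K₂, hK₂, X₁, HU⟩ := rough_lin (K + 1) 1 (by omega) (1 / 2) (by norm_num) β hβ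
  refine ⟨ε, K₂, hε, hK₂, fun s r θ δ hs hθ hδ => ?_⟩
  obtain ⟨c, X₀, HM⟩ := HM s r θ δ hs hθ hδ
  have ht0 : (0 : ℝ) < t := by exact_mod_cast ht
  have h4 : ∀ᶠ X : ℕ in atTop, 1 / θ ≤ (X : ℝ) ^ (1 / 2 : ℝ) :=
    ((tendsto_rpow_atTop (by norm_num : (0 : ℝ) < 1 / 2)).comp tendsto_natCast_atTop_atTop).eventually_ge_atTop _
  have h5 : ∀ᶠ X : ℕ in atTop, (2 * ε) * Real.log X ^ 1 ≤ (X : ℝ) ^ (1 / (t : ℝ)) :=
    Pool.Agent.X32.Fam.log_small' 1 (2 * ε) (1 / (t : ℝ)) (by positivity)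
  obtain ⟨X₄, h4⟩ := eventually_atTop.1 (h4.and h5)
  refine ⟨c, X₀ + X₁ + X₄ + 3, fun X hX m hm hadm j A B hB hAB hBm => ?_⟩
  have hX1 : (1 : ℝ) ≤ X := by exact_mod_cast (by omega : 1 ≤ X)
  have hX0 : (0 : ℝ) < X := by linarith
  have hlog : 0 < Real.log X := Real.log_pos (by exact_mod_cast (by omega : 1 < X))
  have hV : VL (uG K) (vG m) X = V m X := VG_eq m X
  have hB0 : 0 < B := by
    have h1 : (0 : ℝ) < (B : ℝ) - A := lt_of_lt_of_le (by positivity) hAB
    have h2 : (0 : ℝ) < B := by linarith [(Nat.cast_nonneg A : (0 : ℝ) ≤ A)]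
    exact_mod_cast h2
  have hadm' : AdmG m := hadm
  have S : SysL (K + 1) 1 (D + 1) X (uG K) (vG m) 0 j.succ :=
    { a0 := fun i => by
        refine Fin.cases ?_ (fun l => ?_) i
        · rw [uG0]; exact one_ne_zero
        · rw [uGs]; norm_num
      aE := by rw [uG0]; simp
      aE' := by rw [uGs]; simp
      aK := fun i => by
        refine Fin.cases ?_ (fun l => ?_) i
        · rw [uG0, abs_one]
          push_cast
          linarith [(Nat.cast_nonneg D : (0 : ℤ) ≤ D)]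
        · rw [uGs, abs_neg, abs_one]
          push_cast
          linarith [(Nat.cast_nonneg D : (0 : ℤ) ≤ D)]
      bK := fun i => by
        refine Fin.cases ?_ (fun l => ?_) i
        · rw [vG0, abs_zero]
          positivity
        · rw [vGs, Nat.abs_cast]
          have h1 : ((m l : ℕ) : ℤ) ≤ ((D * X : ℕ) : ℤ) := by exact_mod_cast hm l
          refine h1.trans ?_
          push_cast
          nlinarith [(Nat.cast_nonneg X : (0 : ℤ) ≤ X)]
      adm := admG hadm'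
      ne := fun h => by
        have h2 := (Prod.ext_iff.1 h).1
        simp only [uG0, uGs] at h2
        norm_num at h2
      ne' := fun h => by
        have h2 := (Prod.ext_iff.1 h).2
        simp only [vG0, vGs] at h2
        have h3 := hBm j
        omega }
  have hw : ε * Real.log X < (X : ℝ) ^ (1 / (t : ℝ)) := by
    have := (h4 X (by omega)).2
    rw [pow_one] at this
    have h6 : 0 < ε * Real.log X := by positivity
    linarith
  have hhalf : (X : ℝ) ^ (1 / 2 : ℝ) ≤ (B : ℝ) - A := by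
    refine le_trans ?_ hAB
    have e1 := (h4 X (by omega)).1
    have e2 : (X : ℝ) ^ (1 / 2 : ℝ) * (X : ℝ) ^ (1 / 2 : ℝ) = X := by
      rw [← Real.rpow_add hX0]
      norm_num
    have e3 : 0 ≤ (X : ℝ) ^ (1 / 2 : ℝ) := by positivity
    rw [div_le_iff₀ hθ] at e1
    calc (X : ℝ) ^ (1 / 2 : ℝ) = (X : ℝ) ^ (1 / 2 : ℝ) * 1 := (mul_one _).symm
      _ ≤ (X : ℝ) ^ (1 / 2 : ℝ) * ((X : ℝ) ^ (1 / 2 : ℝ) * θ) := by gcongr
      _ = θ * X := by rw [← mul_assoc, e2]; ring
  obtain ⟨g1, g2⟩ := HM X (by omega) _ _ _ _ S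
  have g3 := g2 A B hB hAB
  rw [hV] at g1 g3
  rw [Good_eq m j t X _ _ A B ht hBm hw] at g3
  refine ⟨g1, g3.1, ?_, g3.2⟩
  have g4 := HU X (by omega) (uG K) (vG m) S.a0 (fun i => by
    refine Fin.cases ?_ (fun l => ?_) i
    · rw [uG0]; simp
    · rw [uGs]; simp) A B hB hhalf
  rw [hV, Rough_eq m _ A B hBm] at g4
  exact g4

/-- **Main theorem.** -/
theorem result : (∀ N : ℕ, Even N → Admissible ![N]) ∧
    ∀ K : ℕ, ∃ t : ℕ, 1 ≤ t ∧ ∃ κ : ℝ, 0 < κ ∧ ∀ (β : ℝ) (D : ℕ), 0 < β → ∃ ε K₂ : ℝ, 0 < ε ∧ 0 < K₂ ∧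
    ∀ (s r : ℕ) (θ δ : ℝ), 1 ≤ s → 0 < θ → 0 < δ →
    ∃ c X₀ : ℕ, ∀ X : ℕ, X₀ ≤ X → ∀ m : Fin K → ℕ, (∀ l, m l ≤ D * X) → Admissible m → ∀ j : Fin K,
      ∀ A B : ℕ, B ≤ X → θ * X ≤ (B : ℝ) - A → (∀ l, B ≤ m l) →
        κ / Real.log X ^ (K + 1) ≤ V m X ∧
        κ * ((B : ℝ) - A) * V m X ≤
          ((Good m j t X (ε * Real.log X) ((X : ℝ) ^ β) A B).card : ℝ) ∧
        ((Rough m ((X : ℝ) ^ β) A B).card : ℝ) ≤ K₂ * ((B : ℝ) - A) * V m X ∧
        ∀ χ : ℕ → Fin r, ∃ P : Finset (ℕ × ℕ),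
          (∀ z ∈ P, 1 ≤ z.2 ∧ (z.2 : ℝ) ≤ Real.log X ^ c ∧
            ∀ i < s, z.1 + i * z.2 ∈ Good m j t X (ε * Real.log X) ((X : ℝ) ^ β) A B ∧
              χ (z.1 + i * z.2) = χ z.1) ∧
          (P : Set (ℕ × ℕ)).PairwiseDisjoint (terms s) ∧
          (((Good m j t X (ε * Real.log X) ((X : ℝ) ^ β) A B \ P.biUnion (terms s)).card : ℕ) : ℝ) ≤
            δ * ((B : ℝ) - A) * V m X :=
  ⟨even_adm, main⟩

end Pool.Agent.Results.MP_33f996_nt.IsolatedPartitions
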